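import Pool.Agent.N748.JX.Main
import Pool.Agent.N748.MJ.Rl

set_option autoImplicit false

/-!
# Shifted moments of zeta near the critical line with arbitrary real exponents and individual levels
-/

namespace Pool.Agent.Results.MP_fa2474_nt.IndividualLevels

open MeasureTheory Filter Topology

/-- the modulus of zeta at distance `d` from the critical line and height `t` -/
noncomputable def z (d t : ℝ) : ℝ := ‖riemannZeta (1 / 2 + d + t * Complex.I)‖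

/-- the coefficient of `x^n` in `∏ (1 - x q^(-i h_j))^(-k_j)` -/
noncomputable def c {m : ℕ} (k h : Fin m → ℝ) (q n : ℕ) : ℂ :=
  ∑ μ ∈ Finset.piAntidiag (Finset.univ : Finset (Fin m)) n,
    ∏ j, (((∏ i ∈ Finset.range (μ j), (k j + i) / ((i : ℝ) + 1) : ℝ) : ℂ) *
      (q : ℂ) ^ (-((μ j * h j : ℝ) * Complex.I)))

/-- the arithmetic factor `∏_p ∏_(j,l) |1 - p^(-1-i(h_j-h_l))|^(k_j k_l) ∑_n |c(n)|² p^(-n)` -/
noncomputable def A {m : ℕ} (k h : Fin m → ℝ) : ℝ :=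
  ∏' p : Nat.Primes, (∏ j, ∏ l, ‖1 - ((p : ℕ) : ℂ) ^ (-(1 + ((h j - h l : ℝ) : ℂ) * Complex.I))‖ ^ (k j * k l)) *
    ∑' n : ℕ, ‖c k h p n‖ ^ 2 * (1 / ((p : ℕ) : ℝ)) ^ n

/-- the matrix `log |ζ(1 + 2 d + i (h_j - h_l))|` -/
noncomputable def Q {m : ℕ} (d : ℝ) (h : Fin m → ℝ) : Matrix (Fin m) (Fin m) ℝ :=
  fun j l => Real.log ‖riemannZeta (((1 + 2 * d : ℝ) : ℂ) + ((h j - h l : ℝ) : ℂ) * Complex.I)‖

/-- the quadratic form of a matrix -/
noncomputable def q {m : ℕ} (M : Matrix (Fin m) (Fin m) ℝ) (x : Fin m → ℝ) : ℝ := ∑ j, ∑ l, x j * x l * M j l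

/-- the critical level of the `j`-th factor -/
noncomputable def lam {m : ℕ} (d : ℝ) (k h : Fin m → ℝ) (j : Fin m) : ℝ := ∑ l, Q d h j l * k l

/-- the mean of `∏ |ζ(1/2 + d + i(t+h_j))|^(2 k_j)` over the `t` in `[0, T]` at which the `j`-th factor is at most
`exp (v_j)` for every `j` -/
noncomputable def M {m : ℕ} (k h v : Fin m → ℝ) (d T : ℝ) : ℝ :=
  (1 / T) * ∫ t in {t : ℝ | t ∈ Set.Icc 0 T ∧ ∀ j, z d (t + h j) ≤ Real.exp (v j)}, ∏ j, z d (t + h j) ^ (2 * k j)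

/-- the normal distribution function -/
noncomputable def Phi (x : ℝ) : ℝ := (ProbabilityTheory.gaussianReal 0 1 (Set.Iic x)).toReal

lemma A_eq {m : ℕ} (k h : Fin m → ℝ) : (Pool.Agent.N748.MJ.aV (fun j => (k j : ℂ)) (fun j => (k j : ℂ)) h).re = A k h ∧
    0 < A k h := Pool.Agent.N748.MJ.aR_eq k h

lemma quot (e A p : ℝ) : Real.exp (-e) / A * p = p / (A * Real.exp e) := by
  rcases eq_or_ne A 0 with h | h
  · simp [h]
  rw [Real.exp_neg]
  have := (Real.exp_pos e).ne'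
  field_simp

lemma quot3 (s e A p D : ℝ) (hD : D ≠ 0) : s * Real.exp e / A * p / (1 / D) = p / (A * Real.exp (-e) / (s * D)) := by
  rcases eq_or_ne A 0 with h | h
  · simp [h]
  rcases eq_or_ne s 0 with h' | h'
  · simp [h']
  rw [Real.exp_neg]
  have := (Real.exp_pos e).ne'
  field_simp

theorem result (d : ℝ → ℝ) (hd0 : ∀ᶠ T : ℝ in atTop, 0 < d T) (hd : Tendsto d atTop (𝓝 0))
    (hdL : Tendsto (fun T : ℝ => d T * Real.log T / Real.log (1 / d T) ^ 2) atTop atTop)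
    (m : ℕ) (k : Fin m → ℝ) (hk : ∀ j, 0 ≤ k j) (h : ℝ → Fin m → ℝ)
    (hh : ∀ᶠ T : ℝ in atTop, ∀ j, |h T j| ≤ T ^ ((1:ℝ) / 2)) :
    (∀ (v : ℝ → Fin m → ℝ) (ε C : ℝ), 0 < ε → (∀ᶠ T : ℝ in atTop, ∀ j,
      lam (d T) k (h T) j + ε * Real.log (1 / d T) ≤ v T j ∧ v T j ≤ C * Real.log (1 / d T)) →
      Tendsto (fun T : ℝ => M k (h T) (v T) (d T) T / (A k (h T) * Real.exp (q (Q (d T) (h T)) k))) atTop (𝓝 1)) ∧
    ((∀ j l, j ≠ l → Tendsto (fun T : ℝ => Q (d T) (h T) j l / Real.log (1 / d T)) atTop (𝓝 0)) →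
      ∀ (v : ℝ → Fin m → ℝ) (x : Fin m → ℝ), (∀ j, Tendsto (fun T : ℝ =>
        (v T j - lam (d T) k (h T) j) / Real.sqrt (Real.log (1 / (2 * d T)) / 2)) atTop (𝓝 (x j))) →
      Tendsto (fun T : ℝ => M k (h T) (v T) (d T) T / (A k (h T) * Real.exp (q (Q (d T) (h T)) k))) atTop
        (𝓝 (∏ j, Phi (x j)))) ∧
    ((∃ ε : ℝ, 0 < ε ∧ ∀ᶠ T : ℝ in atTop, ∀ x : Fin m → ℝ,
        ε * Real.log (1 / d T) * ∑ j, x j ^ 2 ≤ q (Q (d T) (h T)) x) →
      ∀ V : Fin m → ℝ, (∀ j, V j < k j) →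
      Tendsto (fun T : ℝ => M k (h T) (lam (d T) V (h T)) (d T) T /
        (A V (h T) * Real.exp (-(q (Q (d T) (h T)) V - 2 * ∑ j, k j * lam (d T) V (h T) j)) /
          (Real.sqrt (Real.pi ^ m * (Q (d T) (h T)).det) * ∏ j, 2 * (k j - V j)))) atTop (𝓝 1)) := by
  have hA : Pool.Agent.N748.MG.Ad d := ⟨hd0, hd, hdL⟩
  refine ⟨fun v ε C hε hv => ?_, fun hc v x hx => ?_, fun hε V hV => ?_⟩
  · have h1 := Pool.Agent.N748.JX.tv1F d hA m k ε C hk hε h v hh hv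
    refine h1.congr fun T => ?_
    rw [(A_eq k (h T)).1]
    exact quot _ _ _
  · have h1 := Pool.Agent.N748.JX.tv2F d hA m k x hk h v hh hc hx
    refine h1.congr fun T => ?_
    rw [(A_eq k (h T)).1]
    exact quot _ _ _
  · have h1 := Pool.Agent.N748.JX.tv3F d hA m h ⟨hh, hε⟩ k V hk hV
    have hp : (∏ j, 2 * (k j - V j)) ≠ 0 := Finset.prod_ne_zero_iff.2 fun j _ => by
      have := hV j
      have : 0 < k j - V j := by linarith
      positivity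
    have e : (∏ j, 1 / (2 * (k j - V j))) = 1 / ∏ j, 2 * (k j - V j) := by
      rw [Finset.prod_div_distrib, Finset.prod_const_one]
    rw [e] at h1
    have h2 := h1.div_const (1 / ∏ j, 2 * (k j - V j))
    rw [div_self (one_div_ne_zero hp)] at h2
    refine h2.congr fun T => ?_
    rw [(A_eq V (h T)).1]
    exact quot3 _ _ _ _ _ hp

end Pool.Agent.Results.MP_fa2474_nt.IndividualLevels
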