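import Pool.Agent.TH612.CF.Mn

set_option autoImplicit false

/-!
# MP_fa2474_nt: the recipe in mean over lines of shifts, for every order and every number of swaps

Let `A` be a set of `k` of the `2k` coordinates of `γ = (α, β)`; the coordinates in `A` move by `+y`, the other ones by
`-y`. Let `m` be the number of the coordinates of the `β`-block in `A`. The difference between the shifted moment and the
full prediction `Q_k`, averaged over `y` with a weight `φ(y log T)` whose Fourier transform is smooth and supported in a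
compact subset of `(-∞, η - 2m]`, `η < 2`, is `O(T^(1/2 + η/4 + ε))`. The frequencies of the moment along this line begin
at `-2m`, and the band of width two there is governed by the term of `Q_k` with `m` swaps which exchanges the coordinates
so that `A` becomes the first block.
-/

namespace Pool.Agent.Results.MP_fa2474_nt.LinesOfShifts

open Complex MeasureTheory Filter
open scoped ContDiff

noncomputable section

variable {k : ℕ}

/-- The divisor function `τ_l(n)`: the sum over `d_1 d_2 ⋯ d_k = n` of `∏ j, d_j ^ l_j`. -/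
def tau (l : Fin k → ℂ) (n : ℕ) : ℂ :=
  ∑ d ∈ Nat.finMulAntidiag k n, ∏ j, (d j : ℂ) ^ (l j)

/-- The Euler factor of `F(s; a, b)` at the prime `p`. -/
def localFactor (s : ℂ) (a b : Fin k → ℝ) (p : ℕ) : ℂ :=
  (∏ j, ∏ l, (1 - (p : ℂ) ^ (-(2 * s + I * a j - I * b l)))) *
    ∑' m : ℕ, tau (fun j => I * b j) (p ^ m) * tau (fun j => -(I * a j)) (p ^ m) *
      (p : ℂ) ^ (-(2 * m * s))

/-- The arithmetic factor `F(s; a, b)`, an Euler product. -/
def arithF (s : ℂ) (a b : Fin k → ℝ) : ℂ := ∏' p : Nat.Primes, localFactor s a b p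

/-- `ζ_{(a, b)}(s)`, through `F(s; a, b)` and the product of `k ^ 2` zeta functions. -/
def zetaAB (s : ℂ) (a b : Fin k → ℝ) : ℂ :=
  arithF s a b * ∏ j, ∏ l, riemannZeta (2 * s + I * a j - I * b l)

/-- The factor `χ` of the functional equation `ζ(s) = χ(s) ζ(1 - s)`. -/
def chi (s : ℂ) : ℂ := (Real.pi : ℂ) ^ (s - 1 / 2) * Gamma ((1 - s) / 2) / Gamma (s / 2)

/-- `Z_{α, β}(t)`, where `γ = (α, β)` is indexed by `Fin k ⊕ Fin k`. -/
def Z (γ : Fin k ⊕ Fin k → ℝ) (t : ℝ) : ℂ :=
  ∏ j : Fin k, riemannZeta (1 / 2 + I * (t + γ (Sum.inl j))) *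
    riemannZeta (1 / 2 - I * (t + γ (Sum.inr j)))

/-- `G_γ(π)`, where `π(γ)` has the coordinates `γ (π i)`. -/
def G (γ : Fin k ⊕ Fin k → ℝ) (t : ℝ) (π : Equiv.Perm (Fin k ⊕ Fin k)) : ℂ :=
  (∏ j : Fin k, if (π (Sum.inl j)).isRight then chi (1 / 2 - I * t - I * γ (π (Sum.inl j))) else 1) *
  ∏ j : Fin k, if (π (Sum.inr j)).isLeft then chi (1 / 2 + I * t + I * γ (π (Sum.inr j))) else 1

/-- `Q_k(t; α, β)`: the summand depends only on the class of `π` in `S_{2k} / (S_k × S_k)`, so the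
sum over the classes is the sum over all `π`, divided by `(k!) ^ 2`. -/
def Q (γ : Fin k ⊕ Fin k → ℝ) (t : ℝ) : ℂ :=
  ((Nat.factorial k : ℂ) ^ 2)⁻¹ * ∑ π : Equiv.Perm (Fin k ⊕ Fin k),
    G γ t π * zetaAB (1 / 2) (fun j => γ (π (Sum.inl j))) (fun j => γ (π (Sum.inr j)))

/-- The line of shifts: the coordinates in `A` are `g i + y`, the other ones are `g i - y`. -/
def line (A : Finset (Fin k ⊕ Fin k)) (g : Fin k ⊕ Fin k → ℝ) (y : ℝ) : Fin k ⊕ Fin k → ℝ :=
  fun i => if i ∈ A then g i + y else g i - y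

/-- The number of the coordinates of the second block in `A`. -/
def swaps (A : Finset (Fin k ⊕ Fin k)) : ℕ := (A.filter fun i => i.isRight = true).card

/-- The weight `φ(y) = ∫ ψ(ξ) e^{iξy} dξ`. -/
def phi (ψ : ℝ → ℂ) (y : ℝ) : ℂ := ∫ ξ : ℝ, ψ ξ * exp (I * ξ * y)

lemma phi_eq (ψ : ℝ → ℂ) (T y : ℝ) : phi ψ (Real.log T * y) = W182.KO.P ψ (Real.log T * y * I) := by
  unfold phi W182.KO.P
  congr 1; funext ξ
  congr 2
  push_cast
  ring

open Pool.Agent.TH612.CF in
lemma zetaAB_eq (a b : Fin k → ℝ) :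
    zetaAB (1 / 2) a b = zab (fun j => (a j : ℂ)) (fun j => (b j : ℂ)) := by
  unfold zetaAB zab arithF FH
  congr 1
  · refine tprod_congr fun p => ?_
    unfold localFactor lh lt
    congr 1
    · refine Finset.prod_congr rfl fun j _ => Finset.prod_congr rfl fun l _ => ?_
      congr 2
      ring
    · refine tsum_congr fun m => ?_
      have hp : ((p : ℕ) : ℂ) ≠ 0 := by exact_mod_cast p.2.ne_zero
      have e : ((p : ℕ) : ℂ) ^ (-(2 * (m : ℂ) * (1 / 2))) = (((p : ℕ) : ℂ) ^ m)⁻¹ := by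
        rw [← Complex.cpow_natCast, ← Complex.cpow_neg]
        congr 1; ring
      rw [e]
      rfl
  · refine Finset.prod_congr rfl fun j _ => Finset.prod_congr rfl fun l _ => ?_
    congr 1
    ring

open Pool.Agent.TH612.CF in
lemma Q_eq (γ : Fin k ⊕ Fin k → ℝ) (t : ℝ) :
    Q γ t = ((Nat.factorial k : ℂ) ^ 2)⁻¹ * Qs t (fun i => (γ i : ℂ)) := by
  unfold Q Qs Rt
  congr 1
  refine Finset.sum_congr rfl fun π _ => ?_
  rw [zetaAB_eq]
  rfl

/-- the sign vector of `A` -/
def sg (A : Finset (Fin k ⊕ Fin k)) (i : Fin k ⊕ Fin k) : ℝ := if i ∈ A then 1 else -1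

lemma line_eq (A : Finset (Fin k ⊕ Fin k)) (g : Fin k ⊕ Fin k → ℝ) (y : ℝ) :
    line A g y = Pool.Agent.TH612.CF.gl g (sg A) y := by
  funext i
  unfold line Pool.Agent.TH612.CF.gl sg
  split_ifs <;> ring

lemma swaps_eq (A : Finset (Fin k ⊕ Fin k)) : swaps A = Pool.Agent.TH612.CF.mv (sg A) := by
  unfold swaps Pool.Agent.TH612.CF.mv
  congr 1
  ext i
  simp only [Finset.mem_filter, Finset.mem_univ, true_and, sg]
  by_cases h : i ∈ A
  · simp [h]
  · simp [h]; norm_num

/-- Let `A` be a set of `k` of the `2k` coordinates, `m` the number of the coordinates of the second block in `A`, and `g`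
a vector whose coordinates in `A` are distinct and whose coordinates outside `A` are distinct. For every smooth `ψ` of
compact support which vanishes to the right of `η - 2m`, `0 ≤ η < 2`, the average of
`∫_0^T (Z_γ(t) - Q_k(t; γ)) dt` over the line of shifts `γ = line A g y` with the weight `φ(y log T)` is
`O(T ^ (1/2 + η/4 + ε))` for every `ε > 0`. -/
theorem result (k : ℕ) (A : Finset (Fin k ⊕ Fin k)) (hA : A.card = k) (g : Fin k ⊕ Fin k → ℝ)
    (hg : ∀ i j, (i ∈ A ↔ j ∈ A) → g i = g j → i = j) (η : ℝ) (hη0 : 0 ≤ η) (hη2 : η < 2)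
    (ψ : ℝ → ℂ) (hψ : ContDiff ℝ ∞ ψ) (hc : HasCompactSupport ψ)
    (hs : ∀ ξ : ℝ, η - 2 * swaps A < ξ → ψ ξ = 0) :
    (∀ T : ℝ, Real.exp 1 ≤ T → Integrable (fun y : ℝ => phi ψ (Real.log T * y) *
      ∫ t in (0:ℝ)..T, (Z (line A g y) t - Q (line A g y) t))) ∧
    ∀ ε : ℝ, 0 < ε → (fun T : ℝ => ∫ y : ℝ, phi ψ (Real.log T * y) *
      ∫ t in (0:ℝ)..T, (Z (line A g y) t - Q (line A g y) t)) =O[atTop]
        fun T : ℝ => T ^ (1 / 2 + η / 4 + ε) := by
  obtain ⟨π, hπ⟩ := Pool.Agent.TH612.CF.exists_good hA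
  have hG : Pool.Agent.TH612.CF.Good (sg A) π := fun j => by
    constructor
    · simp [sg, (hπ j).1]
    · simp [sg, (hπ j).2]
  have hCI : Pool.Agent.TH612.CF.CI g (sg A) := by
    intro p q h1 h2
    refine hg p q ?_ h2
    unfold sg at h1
    by_cases hp : p ∈ A <;> by_cases hq : q ∈ A
    · simp [hp, hq]
    · simp only [hp, hq, if_true, if_false] at h1
      norm_num at h1
    · simp only [hp, hq, if_true, if_false] at h1
      norm_num at h1
    · simp [hp, hq]
  have hT : W182.KO.TF (η - 2 * Pool.Agent.TH612.CF.mv (sg A)) ψ := by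
    refine ⟨hψ, hc, fun ξ hξ => hs ξ ?_⟩
    rw [swaps_eq]
    exact hξ
  have e : ∀ T y : ℝ, phi ψ (Real.log T * y) *
      (∫ t in (0:ℝ)..T, (Z (line A g y) t - Q (line A g y) t)) =
      Pool.Agent.TH612.CF.EE ψ g (sg A) T y := by
    intro T y
    unfold Pool.Agent.TH612.CF.EE
    rw [phi_eq, line_eq]
    simp only [Q_eq]
    rfl
  simp only [e]
  exact ⟨fun T hTe => Pool.Agent.TH612.CF.EE_int hG hCI hT hTe,
    fun ε hε => Pool.Agent.TH612.CF.main_O hG hCI hη0 hη2 hT hε⟩

end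

end Pool.Agent.Results.MP_fa2474_nt.LinesOfShifts
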