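import Pool.Agent.N30.SM.Bl

/-!
# The recipe for products of shifted zeta functions with one conjugate factor

The moments in the problem are mean values of products of shifted zeta functions and conjugate
zeta functions. Here all factors but one are unconjugated: for distinct nonzero real shifts
`a_1, …, a_m` the product is
`Z(t) = ζ(1/2 + i(t + a_1)) ⋯ ζ(1/2 + i(t + a_m)) · conj ζ(1/2 + it)`,
and the recipe of Conrey, Farmer, Keating, Rubinstein and Snaith predicts its mean value to be that of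
`Q(t) = ∏_j ζ(1 + i a_j) + ∑_j (t/2π)^{-i a_j} ζ(1 - i a_j) ∏_{i ≠ j} ζ(1 + i(a_i - a_j))`,
the sum of the `m + 1` terms in which the `m + 1` shifts (the last being `0`) are permuted.

`result` proves this for every `m`, unconditionally and with a power saving, in Gaussian windows.
-/

set_option autoImplicit false

open Complex MeasureTheory

namespace Pool.Agent.Results.MP_fa2474_nt.OneConjugate

/-- the product of `m` shifted zeta functions and one conjugate -/
noncomputable def Z {m : ℕ} (a : Fin m → ℝ) (t : ℝ) : ℂ :=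
  (∏ j, riemannZeta (1 / 2 + ((t + a j : ℝ) : ℂ) * I)) * (starRingEnd ℂ) (riemannZeta (1 / 2 + (t : ℂ) * I))

/-- the recipe -/
noncomputable def Q {m : ℕ} (a : Fin m → ℝ) (t : ℝ) : ℂ :=
  (∏ j, riemannZeta (1 + (a j : ℂ) * I)) + ∑ j, ((t / (2 * Real.pi) : ℝ) : ℂ) ^ (-((a j : ℂ) * I)) *
    (riemannZeta (1 - (a j : ℂ) * I) * ∏ i ∈ Finset.univ.erase j, riemannZeta (1 + ((a i - a j : ℝ) : ℂ) * I))

/-- **The recipe for products with one conjugate factor.** Let `a_1, …, a_m` (`m ≥ 1`) be distinct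
nonzero real numbers. In the Gaussian window of centre `T` and width `Δ`, where
`T^{1-δ} ≤ Δ ≤ T / (B √log T)`, the mean value of `Z - Q` is `O(Δ T^{-δ} + Δ² T⁻¹ (log T)^m)`;
for `T^{1-δ} ≤ Δ ≤ T^{1-η}` this is a power saving. -/
theorem result (m : ℕ) (hm : 1 ≤ m) (a : Fin m → ℝ) (ha : Function.Injective a) (h0 : ∀ j, a j ≠ 0) :
    ∃ C δ B T₀ : ℝ, 0 < δ ∧ ∀ T Δ : ℝ, T₀ ≤ T → T ^ (1 - δ) ≤ Δ → B * Δ * √(Real.log T) ≤ T →
      ‖∫ t in (T / 2)..(3 * T / 2), (Z a t - Q a t) * ((Real.exp (-((t - T) / Δ) ^ 2) : ℝ) : ℂ)‖ ≤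
        C * (Δ * T ^ (-δ) + Δ ^ 2 / T * Real.log T ^ m) := by
  obtain ⟨C, δ, B, T₀, -, hδ, -, -, -, h⟩ := Pool.Agent.N30.SM.window_Z hm ha h0
  refine ⟨C, δ, B, T₀, hδ, fun T Δ hT hΔ hB => ?_⟩
  have h1 := h T Δ hT hΔ hB
  have e : Δ ^ 2 / T = Δ / T * Δ := by ring
  rw [e]
  exact h1

end Pool.Agent.Results.MP_fa2474_nt.OneConjugate
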