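import Pool.Agent.N30.SM.Bl

/-!
# The shifted third moment

For distinct nonzero reals `a, b` the recipe of Conrey, Farmer, Keating, Rubinstein and Snaith predicts
that `ζ(1/2 + i(t + a)) ζ(1/2 + i(t + b)) conj ζ(1/2 + it)` has the mean value of
`ζ(1 + ia) ζ(1 + ib) + (t/2π)^{-ia} ζ(1 - ia) ζ(1 + i(b - a)) + (t/2π)^{-ib} ζ(1 - ib) ζ(1 + i(a - b))`.
`result` proves this for the integral over `[0, T]`, unconditionally and with a power saving.
-/

set_option autoImplicit false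

open Complex MeasureTheory

namespace Pool.Agent.Results.MP_fa2474_nt.ShiftedThirdMoment

/-- the recipe -/
noncomputable def Q (a b t : ℝ) : ℂ :=
  riemannZeta (1 + (a : ℂ) * I) * riemannZeta (1 + (b : ℂ) * I) +
  ((t / (2 * Real.pi) : ℝ) : ℂ) ^ (-((a : ℂ) * I)) * riemannZeta (1 - (a : ℂ) * I) * riemannZeta (1 + ((b - a : ℝ) : ℂ) * I) +
  ((t / (2 * Real.pi) : ℝ) : ℂ) ^ (-((b : ℂ) * I)) * riemannZeta (1 - (b : ℂ) * I) * riemannZeta (1 + ((a - b : ℝ) : ℂ) * I)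

/-- **The shifted third moment.** Let `a ≠ b` be nonzero real numbers. Then
`∫_0^T ζ(1/2 + i(t+a)) ζ(1/2 + i(t+b)) conj ζ(1/2 + it) dt = ∫_0^T Q(t) dt + O(T^{1-θ})` for some
`θ > 0`. -/
theorem result (a b : ℝ) (hab : a ≠ b) (ha : a ≠ 0) (hb : b ≠ 0) :
    ∃ C θ : ℝ, 0 < θ ∧ ∀ T : ℝ, 1 ≤ T →
      ‖∫ t in (0 : ℝ)..T, (riemannZeta (1 / 2 + ((t + a : ℝ) : ℂ) * I) * riemannZeta (1 / 2 + ((t + b : ℝ) : ℂ) * I) *
        (starRingEnd ℂ) (riemannZeta (1 / 2 + (t : ℂ) * I)) - Q a b t)‖ ≤ C * T ^ (1 - θ) := by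
  have hinj : Function.Injective ![a, b] := by
    intro x y h
    fin_cases x <;> fin_cases y <;> simp at h ⊢
    · exact hab h
    · exact hab h.symm
  have h0 : ∀ j, ![a, b] j ≠ 0 := by
    intro j
    fin_cases j
    · exact ha
    · exact hb
  obtain ⟨K, θ, -, hθ, h⟩ := Pool.Agent.N30.SM.sharp_Z hinj h0
  refine ⟨K, θ, hθ, fun T hT => ?_⟩
  refine le_trans (le_of_eq ?_) (h T hT)
  congr 1
  apply intervalIntegral.integral_congr
  intro t _
  simp only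
  have e0 : (Finset.univ.erase (0 : Fin 2)) = {1} := by decide
  have e1 : (Finset.univ.erase (1 : Fin 2)) = {0} := by decide
  unfold Pool.Agent.N30.SM.Zm Pool.Agent.N30.SM.Qr Q
  rw [Fin.prod_univ_two, Fin.prod_univ_two, Fin.sum_univ_two, e0, e1, Finset.prod_singleton, Finset.prod_singleton]
  simp only [Matrix.cons_val_zero, Matrix.cons_val_one]
  ring

end Pool.Agent.Results.MP_fa2474_nt.ShiftedThirdMoment
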